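import Pool.Agent.Helper13.HE.St

/-!
# Project HE, module EXT: helper53's weights give a `Cfg`
-/

set_option autoImplicit false

open Module Classical
open scoped LinearAlgebra.Projectivization

namespace Pool.Agent.Helper99.HE

open Pool.Agent.Helper13.HE Pool.Agent.Helper53.PB

universe u v

section main

variable {F : Type u} {V : Type v} [Field F] [AddCommGroup V] [Module F V]

/-- the masses on a subspace: the zero terms dropped -/
private theorem mass_pts [Finite V] (P : Polar F V) (T : Finset (ℙ F V)) (l : Submodule F V) :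
    mass (Finset.univ.filter (fun X => 0 < eps P T X)) (eps P T) l = ∑ X ∈ pts l, eps P T X := by
  unfold mass pts
  rw [Finset.filter_filter, Finset.sum_filter, Finset.sum_filter]
  apply Finset.sum_congr rfl
  intro X _
  by_cases h1 : X.rep ∈ l
  · by_cases h2 : 0 < eps P T X
    · rw [if_pos ⟨h2, h1⟩, if_pos h1]
    · rw [if_neg (fun h => h2 h.1), if_pos h1]
      omega
  · rw [if_neg (fun h => h1 h.2), if_neg h1]

private theorem nn_eq (Q : QuadraticForm F V)
    (nd : ∀ x, Q x = 0 → (∀ y, QuadraticMap.polar Q x y = 0) → x = 0) (T : Finset (ℙ F V))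
    (R : ℙ F V) : (Form.orthogonal Q nd).toPolar.nn T R = nu Q T R.rep := by
  unfold Polar.nn nu
  congr 1
  apply Finset.filter_congr
  intro y _
  change QuadraticMap.polar Q y.rep R.rep = 0 ↔ _
  rw [QuadraticMap.polar_comm]

/-- the polar form is non-degenerate (also on non-singular vectors) -/
private theorem nondeg_all [FiniteDimensional F V] (Q : QuadraticForm F V)
    (nd : ∀ x, Q x = 0 → (∀ y, QuadraticMap.polar Q x y = 0) → x = 0)
    (hp : HasParams (Form.orthogonal Q nd) 10 5) {x : V}
    (hx : ∀ y, QuadraticMap.polar Q x y = 0) : x = 0 := by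
  obtain ⟨U0, hU0, _⟩ := Polar.exists_gen_ge (P := (Form.orthogonal Q nd).toPolar) Polar.ts_bot
  have hr : finrank F U0 = 5 := class_gen hp U0 hU0
  have hmem : x ∈ U0 := perp_self Q nd (r := 5) hU0.1.1 hU0.1.2 hr hp.1 (fun u _ => hx u)
  exact nd x (hU0.1.1 x hmem) hx

end main

theorem hEXT : StEXT.{u, v} := by
  intro F _ _ V _ _ _ Q nd h j T hq h1 hp S hj
  have hfV : Finite V := Module.finite_of_finite F
  have hJ : j * (Nat.card F + 1) < Fintype.card Unit * Nat.card F ^ 3 := by
    rw [Fintype.card_unit, one_mul]
    obtain ⟨a, ha⟩ : ∃ a, Nat.card F = j + 2 + a := ⟨Nat.card F - (j + 2), by omega⟩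
    rw [ha]
    have e : (j + 2 + a) ^ 3 = (j + 2 + a) * ((j + 2 + a) * (j + 2 + a)) := by ring
    rw [e]
    nlinarith [Nat.zero_le j, Nat.zero_le a, Nat.zero_le (j * a), Nat.zero_le (j * j),
      Nat.zero_le (a * a), Nat.zero_le (j * j * j), Nat.zero_le (j * j * a),
      Nat.zero_le (j * a * a), Nat.zero_le (a * a * a)]
  refine ⟨Finset.univ.filter (fun X => 0 < eps (Form.orthogonal Q nd).toPolar T X),
    eps (Form.orthogonal Q nd).toPolar T, ?_⟩
  have hH : ∀ R ∈ Finset.univ.filter
      (fun X : ℙ F V => 0 < eps (Form.orthogonal Q nd).toPolar T X),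
      0 < eps (Form.orthogonal Q nd).toPolar T R := fun R hR => (Finset.mem_filter.1 hR).2
  exact
    { hq := hq
      h1 := h1
      hd := hp.1
      nd := fun x hx => nondeg_all Q nd hp hx
      sT := fun P hP => S.block.1 P hP
      sH := fun R hR => (eps_pos (hH R hR)).1
      cT := by
        have := S.card
        rw [Fintype.card_unit, one_mul] at this
        exact this
      hj := hj
      dis := fun R hR => (eps_pos (hH R hR)).2
      mp := fun R hR => hH R hR
      ms := by
        rw [Finset.sum_filter_of_ne]
        · exact total_weight S hJ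
        · intro X _ hX
          exact Nat.pos_of_ne_zero hX
      ln := by
        intro P hP X hXP hX hPX
        have hts : (Form.orthogonal Q nd).toPolar.TS (line P X) :=
          line_ts (P := (Form.orthogonal Q nd).toPolar) (S.block.1 P hP) hX hPX
        have h2 := line_weight S hJ (Ne.symm hXP) hts hP (left_mem_line P X)
        rw [mass_pts, ← h2, add_comm]
      up := by
        intro R hR
        obtain ⟨h2, h3⟩ := eps_pos (hH R hR)
        obtain ⟨h4, _, h5⟩ := nn_lower S h2 h3
        have h6 := eps_not h2 h3
        rw [nn_eq, Fintype.card_unit, one_mul] at h5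
        have h7 : tmin (Form.orthogonal Q nd).toPolar T R =
            1 + eps (Form.orthogonal Q nd).toPolar T R := by omega
        rw [h7] at h5
        omega }

end Pool.Agent.Helper99.HE
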